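import Pool.Agent.Q95.CW.Pal

/-! Linear extensions of a product of two chains, coded by Catalan words. -/

namespace Pool.Agent.Q95.CW
open Finset

lemma cnt_succ {m : ℕ} (w : Fin m → Fin 2) (c : Fin 2) (i : Fin m) :
    cnt w c (i + 1) = cnt w c i + if w i = c then 1 else 0 := by
  unfold cnt
  rw [Finset.card_filter, Finset.card_filter]
  have h : ∀ j : Fin m, (if (j : ℕ) < i + 1 ∧ w j = c then 1 else 0) =
      (if (j : ℕ) < i ∧ w j = c then 1 else 0) + (if j = i then (if w i = c then 1 else 0) else 0) := by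
    intro j
    by_cases hj : j = i
    · subst hj
      simp
    · have : (j : ℕ) ≠ i := fun h => hj (Fin.ext h)
      have h2 : ((j : ℕ) < i + 1) ↔ ((j : ℕ) < i) := by omega
      rw [if_neg hj, add_zero]
      simp only [h2]
  rw [Finset.sum_congr rfl (fun j _ => h j), Finset.sum_add_distrib, Finset.sum_ite_eq']
  simp

lemma cnt_mono {m : ℕ} (w : Fin m → Fin 2) (c : Fin 2) {a b : ℕ} (h : a ≤ b) :
    cnt w c a ≤ cnt w c b := by
  unfold cnt
  refine Finset.card_le_card fun i hi => ?_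
  rw [Finset.mem_filter] at hi ⊢
  exact ⟨hi.1, lt_of_lt_of_le hi.2.1 h, hi.2.2⟩

/-- a labelling of the two chains -/
structure Lab (n : ℕ) where
  lab : Fin 2 → ℕ → ℕ
  typ : ℕ → Fin 2
  idx : ℕ → ℕ
  R : ℕ → ℕ → Prop
  lt : ∀ c k, k < n → lab c k < 2 * n
  typ_lab : ∀ c k, k < n → typ (lab c k) = c
  idx_lab : ∀ c k, k < n → idx (lab c k) = k
  idx_lt : ∀ v, v < 2 * n → idx v < n
  lab_typ : ∀ v, v < 2 * n → lab (typ v) (idx v) = v
  hR : ∀ u v, u < 2 * n → v < 2 * n →
    (R u v ↔ typ u ≤ typ v ∧ idx v ≤ idx u ∧ u ≠ v)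

variable {n : ℕ} (L : Lab n)

def IsLE (π : Equiv.Perm (Fin (2 * n))) : Prop :=
  ∀ a b : Fin (2 * n), L.R (π a) (π b) → a < b

def IsCat (w : Fin (2 * n) → Fin 2) : Prop := Bal w ∧ cnt w 1 (2 * n) = n

def wd (π : Equiv.Perm (Fin (2 * n))) : Fin (2 * n) → Fin 2 := fun i => L.typ (π i)

variable {L}

lemma ext_of {u v : ℕ} (hu : u < 2 * n) (hv : v < 2 * n) (h1 : L.typ u = L.typ v)
    (h2 : L.idx u = L.idx v) : u = v := by
  rw [← L.lab_typ u hu, ← L.lab_typ v hv, h1, h2]

lemma cnt_one {π : Equiv.Perm (Fin (2 * n))} : cnt (wd L π) 1 (2 * n) = n := by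
  unfold cnt
  have : (Finset.range n).card = n := Finset.card_range n
  refine Eq.trans ?_ this
  have e : (Finset.univ.filter fun i : Fin (2 * n) => (i : ℕ) < 2 * n ∧
      wd L π i = 1) = Finset.univ.filter fun i : Fin (2 * n) => wd L π i = 1 := by
    ext i
    have := i.2
    simp only [Finset.mem_filter]
    tauto
  rw [e]
  refine Finset.card_bij (fun i _ => L.idx (π i)) ?_ ?_ ?_
  · intro i _
    exact Finset.mem_range.2 (L.idx_lt _ (π i).2)
  · intro i hi j hj h
    rw [Finset.mem_filter] at hi hj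
    have := ext_of (π i).2 (π j).2 (hi.2.trans hj.2.symm) h
    exact π.injective (Fin.ext this)
  · intro k hk
    rw [Finset.mem_range] at hk
    refine ⟨π.symm ⟨L.lab 1 k, L.lt 1 k hk⟩, ?_, ?_⟩
    · rw [Finset.mem_filter]
      refine ⟨Finset.mem_univ _, ?_⟩
      unfold wd
      rw [Equiv.apply_symm_apply]
      exact L.typ_lab 1 k hk
    · rw [Equiv.apply_symm_apply]
      exact L.idx_lab 1 k hk

lemma bal_wd {π : Equiv.Perm (Fin (2 * n))} (hπ : IsLE L π) : Bal (wd L π) := by
  intro k hk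
  unfold cnt
  refine Finset.card_le_card_of_injOn
    (fun i => π.symm ⟨L.lab 0 (L.idx (π i)), L.lt 0 _ (L.idx_lt _ (π i).2)⟩) ?_ ?_
  · intro i hi
    rw [Finset.mem_coe, Finset.mem_filter] at hi
    rw [Finset.mem_coe, Finset.mem_filter]
    have hidx := L.idx_lt _ (π i).2
    have hlt := L.lt 0 _ hidx
    refine ⟨Finset.mem_univ _, ?_, ?_⟩
    · have : π.symm ⟨L.lab 0 (L.idx (π i)), hlt⟩ < i := by
        apply hπ
        rw [Equiv.apply_symm_apply]
        rw [L.hR _ _ hlt (π i).2]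
        refine ⟨?_, ?_, ?_⟩
        · rw [L.typ_lab 0 _ hidx]
          exact Fin.zero_le _
        · exact (L.idx_lab 0 _ hidx).ge
        · intro h
          have h2 : L.typ (L.lab 0 (L.idx (π i))) = L.typ (π i) := congrArg L.typ h
          rw [L.typ_lab 0 _ hidx] at h2
          have h3 : L.typ (π i) = 1 := hi.2.2
          rw [h3] at h2
          exact absurd h2 (by decide)
      exact lt_trans this hi.2.1
    · unfold wd
      rw [Equiv.apply_symm_apply]
      exact L.typ_lab 0 _ hidx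
  · intro i hi j hj h
    rw [Finset.mem_coe, Finset.mem_filter] at hi hj
    have h1 := π.symm.injective h
    have h2 : L.lab 0 (L.idx (π i)) = L.lab 0 (L.idx (π j)) := congrArg Fin.val h1
    have h3 : L.idx (π i) = L.idx (π j) := by
      rw [← L.idx_lab 0 _ (L.idx_lt _ (π i).2), h2, L.idx_lab 0 _ (L.idx_lt _ (π j).2)]
    have := ext_of (π i).2 (π j).2 (hi.2.2.trans hj.2.2.symm) h3
    exact π.injective (Fin.ext this)

lemma isCat_wd {π : Equiv.Perm (Fin (2 * n))} (hπ : IsLE L π) : IsCat (wd L π) :=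
  ⟨bal_wd hπ, cnt_one⟩

lemma idx_eq {π : Equiv.Perm (Fin (2 * n))} (hπ : IsLE L π) (i : Fin (2 * n)) :
    cnt (wd L π) (wd L π i) (i + 1) = n - L.idx (π i) := by
  rw [← Nat.card_Ico]
  unfold cnt
  refine Finset.card_bij (fun j _ => L.idx (π j)) ?_ ?_ ?_
  · intro j hj
    rw [Finset.mem_filter] at hj
    rw [Finset.mem_Ico]
    refine ⟨?_, L.idx_lt _ (π j).2⟩
    by_contra hc
    push Not at hc
    have : i < j := by
      apply hπ
      rw [L.hR _ _ (π i).2 (π j).2]
      refine ⟨hj.2.2.ge, hc.le, ?_⟩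
      intro h
      rw [h] at hc
      exact lt_irrefl _ hc
    have h2 := hj.2.1
    have h3 : (i : ℕ) < j := this
    omega
  · intro j hj k hk h
    rw [Finset.mem_filter] at hj hk
    have := ext_of (π j).2 (π k).2 (hj.2.2.trans hk.2.2.symm) h
    exact π.injective (Fin.ext this)
  · intro k hk
    rw [Finset.mem_Ico] at hk
    have hlt := L.lt (L.typ (π i)) k hk.2
    refine ⟨π.symm ⟨L.lab (L.typ (π i)) k, hlt⟩, ?_, ?_⟩
    · rw [Finset.mem_filter]
      refine ⟨Finset.mem_univ _, ?_, ?_⟩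
      · rcases Nat.eq_or_lt_of_le hk.1 with h | h
        · have : (⟨L.lab (L.typ (π i)) k, hlt⟩ : Fin (2 * n)) = π i := by
            apply Fin.ext
            show L.lab (L.typ (π i)) k = (π i : ℕ)
            rw [← h]
            exact L.lab_typ _ (π i).2
          rw [this, Equiv.symm_apply_apply]
          omega
        · have : π.symm ⟨L.lab (L.typ (π i)) k, hlt⟩ < i := by
            apply hπ
            rw [Equiv.apply_symm_apply]
            rw [L.hR _ _ hlt (π i).2]
            refine ⟨?_, ?_, ?_⟩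
            · exact (L.typ_lab _ k hk.2).le
            · exact hk.1.trans (L.idx_lab _ k hk.2).ge
            · intro h2
              have h3 : L.idx (L.lab (L.typ (π i)) k) = L.idx (π i) := congrArg L.idx h2
              rw [L.idx_lab _ k hk.2] at h3
              omega
          have h4 : ((π.symm ⟨L.lab (L.typ (π i)) k, hlt⟩ : Fin (2 * n)) : ℕ) < i := this
          omega
      · unfold wd
        rw [Equiv.apply_symm_apply]
        exact L.typ_lab _ k hk.2
    · rw [Equiv.apply_symm_apply]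
      exact L.idx_lab _ k hk.2

lemma val_eq {π : Equiv.Perm (Fin (2 * n))} (hπ : IsLE L π) (i : Fin (2 * n)) :
    (π i : ℕ) = L.lab (wd L π i) (n - cnt (wd L π) (wd L π i) (i + 1)) := by
  rw [idx_eq hπ i]
  have h := L.idx_lt _ (π i).2
  have e : n - (n - L.idx (π i)) = L.idx (π i) := by omega
  rw [e]
  exact (L.lab_typ _ (π i).2).symm

lemma wd_inj {π σ : Equiv.Perm (Fin (2 * n))} (hπ : IsLE L π) (hσ : IsLE L σ)
    (h : wd L π = wd L σ) : π = σ := by
  apply Equiv.ext
  intro i
  apply Fin.ext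
  rw [val_eq hπ, val_eq hσ, h]

lemma cnt_le_n {w : Fin (2 * n) → Fin 2} (hw : IsCat w) (c : Fin 2) {k : ℕ} (hk : k ≤ 2 * n) :
    cnt w c k ≤ n := by
  have h1 := cnt_mono w c hk
  have h2 := cnt_add w (le_refl (2 * n))
  have h3 := hw.2
  have : c = 0 ∨ c = 1 := by
    have := c.2
    rcases h : c with ⟨v, hv⟩
    interval_cases v
    · left; rfl
    · right; rfl
  rcases this with rfl | rfl
  · omega
  · omega

lemma wd_surj {w : Fin (2 * n) → Fin 2} (hw : IsCat w) :
    ∃ π : Equiv.Perm (Fin (2 * n)), IsLE L π ∧ wd L π = w := by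
  have hpos : ∀ i : Fin (2 * n), 1 ≤ cnt w (w i) (i + 1) := by
    intro i
    rw [cnt_succ]
    simp
  have hle : ∀ i : Fin (2 * n), cnt w (w i) (i + 1) ≤ n := fun i => cnt_le_n hw _ (by omega)
  have hlt : ∀ i : Fin (2 * n), n - cnt w (w i) (i + 1) < n := by
    intro i
    have := hpos i
    have := hle i
    omega
  have hmono : ∀ i j : Fin (2 * n), i < j → w i = w j →
      cnt w (w i) (i + 1) < cnt w (w j) (j + 1) := by
    intro i j hij h
    rw [cnt_succ w (w j) j, if_pos rfl, h]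
    have : (i : ℕ) + 1 ≤ j := hij
    have := cnt_mono w (w j) this
    omega
  set f : Fin (2 * n) → Fin (2 * n) := fun i =>
    ⟨L.lab (w i) (n - cnt w (w i) (i + 1)), L.lt _ _ (hlt i)⟩ with hf
  have hft : ∀ i, L.typ (f i) = w i := fun i => L.typ_lab _ _ (hlt i)
  have hfi : ∀ i, L.idx (f i) = n - cnt w (w i) (i + 1) := fun i => L.idx_lab _ _ (hlt i)
  have hinj : Function.Injective f := by
    intro i j h
    have h1 : w i = w j := by rw [← hft i, ← hft j, h]
    have h2 : n - cnt w (w i) (i + 1) = n - cnt w (w j) (j + 1) := by rw [← hfi i, ← hfi j, h]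
    have := hle i
    have := hle j
    rcases lt_trichotomy i j with h3 | h3 | h3
    · have := hmono i j h3 h1
      omega
    · exact h3
    · have := hmono j i h3 h1.symm
      omega
  have hbij : Function.Bijective f := (Fintype.bijective_iff_injective_and_card f).2 ⟨hinj, rfl⟩
  refine ⟨Equiv.ofBijective f hbij, ?_, ?_⟩
  · intro a b hab
    have hab' : L.R (f a) (f b) := hab
    rw [L.hR _ _ (f a).2 (f b).2, hft, hft, hfi, hfi] at hab'
    obtain ⟨h1, h2, h3⟩ := hab'
    by_contra hc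
    have hne : a ≠ b := fun h => h3 (by rw [h])
    have hba : b < a := lt_of_le_of_ne (not_lt.1 hc) hne.symm
    have := hle a
    have := hle b
    by_cases hw2 : w a = w b
    · have := hmono b a hba hw2.symm
      omega
    · have ha : w a = 0 ∧ w b = 1 := by
        have l1 := (w a).2
        have l2 := (w b).2
        have l3 : (w a : ℕ) ≤ (w b : ℕ) := h1
        have l4 : (w a : ℕ) ≠ (w b : ℕ) := fun h => hw2 (Fin.ext h)
        constructor
        · apply Fin.ext; show (w a : ℕ) = 0; omega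
        · apply Fin.ext; show (w b : ℕ) = 1; omega
      rw [ha.1, ha.2] at h2
      have e1 := cnt_succ w 0 a
      rw [if_pos ha.1] at e1
      have e2 : cnt w 0 (b + 1) ≤ cnt w 0 a := cnt_mono w 0 hba
      have e3 := hw.1 (b + 1) (by have := b.2; omega)
      have e4 := cnt_le_n hw 0 (k := (a : ℕ) + 1) (by omega)
      have e5 := cnt_le_n hw 1 (k := (b : ℕ) + 1) (by omega)
      omega
  · funext i
    exact hft i

open Classical in
/-- transfer of sums from linear extensions to Catalan words -/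
lemma sum_LE (F : Equiv.Perm (Fin (2 * n)) → ℝ) (G : (Fin (2 * n) → Fin 2) → ℝ)
    (h : ∀ π, IsLE L π → F π = G (wd L π)) :
    ∑ π ∈ Finset.univ.filter (fun π : Equiv.Perm (Fin (2 * n)) => IsLE L π), F π =
      ∑ w ∈ Finset.univ.filter (fun w : Fin (2 * n) → Fin 2 => IsCat w), G w := by
  refine Finset.sum_bij (fun π _ => wd L π) ?_ ?_ ?_ ?_
  · intro π hπ
    rw [Finset.mem_filter] at hπ ⊢
    exact ⟨Finset.mem_univ _, isCat_wd hπ.2⟩
  · intro π hπ σ hσ h
    rw [Finset.mem_filter] at hπ hσ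
    exact wd_inj hπ.2 hσ.2 h
  · intro w hw
    rw [Finset.mem_filter] at hw
    obtain ⟨π, h1, h2⟩ := wd_surj (L := L) hw.2
    exact ⟨π, Finset.mem_filter.2 ⟨Finset.mem_univ _, h1⟩, h2⟩
  · intro π hπ
    rw [Finset.mem_filter] at hπ
    exact h π hπ.2

open Classical in
lemma T_eq (x : ℝ) (n : ℕ) :
    T x (2 * n) n = ∑ w ∈ Finset.univ.filter (fun w : Fin (2 * n) → Fin 2 => IsCat w),
      x ^ maj (val w) := by
  unfold T
  rw [Finset.sum_filter]
  refine Finset.sum_congr rfl fun w _ => ?_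
  exact if_congr Iff.rfl rfl rfl

open Classical in
/-- palindromicity -/
theorem cat_pal {x : ℝ} (h0 : 0 < x) (h1 : x ≠ 1) (n : ℕ) :
    (∑ w ∈ Finset.univ.filter (fun w : Fin (2 * n) → Fin 2 => IsCat w), x⁻¹ ^ maj (val w)) *
      x ^ (n * (n - 1)) =
    ∑ w ∈ Finset.univ.filter (fun w : Fin (2 * n) → Fin 2 => IsCat w), x ^ maj (val w) := by
  rw [← T_eq, ← T_eq]
  exact T_pal h0 h1 n

/-- sum of all positions -/
lemma sum_pos (m : ℕ) :
    2 * (∑ i : Fin m, if (i : ℕ) + 1 < m then (i : ℕ) + 1 else 0) = m * (m - 1) := by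
  rcases m with _ | m
  · simp
  · rw [Fin.sum_univ_castSucc]
    simp only [Fin.val_castSucc, Fin.val_last, lt_irrefl, if_false, add_zero]
    have : ∀ i : Fin m, (if (i : ℕ) + 1 < m + 1 then (i : ℕ) + 1 else 0) = (i : ℕ) + 1 := by
      intro i
      rw [if_pos]
      have := i.2
      omega
    rw [Finset.sum_congr rfl (fun i _ => this i), Fin.sum_univ_eq_sum_range (fun i => i + 1)]
    have h := two_ee m
    unfold ee at h
    rw [h]
    simp [mul_comm]

end Pool.Agent.Q95.CW
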