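import Pool.Agent.Q95.CW.LE

namespace Pool.Agent.Q95.CW
open Finset Polynomial

lemma poly_eq (P Q : ℤ[X]) (h : ∀ x : ℝ, 0 < x → x ≠ 1 → aeval x P = aeval x Q) : P = Q := by
  apply Polynomial.map_injective (Int.castRingHom ℝ) Int.cast_injective
  refine Polynomial.eq_of_infinite_eval_eq _ _ ?_
  refine Set.Infinite.mono ?_ (Set.Ioi_infinite (1 : ℝ))
  intro x hx
  have hx' : (1 : ℝ) < x := hx
  have := h x (by linarith) hx'.ne'
  show Polynomial.eval x _ = Polynomial.eval x _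
  rw [Polynomial.eval_map, Polynomial.eval_map]
  rw [Polynomial.aeval_def, Polynomial.aeval_def] at this
  exact this

variable {n : ℕ} {L : Lab n}

open Classical in
lemma main_of (hnonneg : ∀ π : Equiv.Perm (Fin (2 * n)), IsLE L π →
      maj (fun i => (π i : ℕ)) + maj (val (wd L π)) = n * (2 * n - 1)) {x : ℝ} (h0 : 0 < x)
      (h1 : x ≠ 1) :
    ∑ π ∈ Finset.univ.filter (fun π : Equiv.Perm (Fin (2 * n)) => IsLE L π),
      x ^ maj (fun i => (π i : ℕ)) =
    x ^ (n ^ 2) * ∑ w ∈ Finset.univ.filter (fun w : Fin (2 * n) → Fin 2 => IsCat w),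
      x ^ maj (val w) := by
  rw [sum_LE (L := L) _ (fun w => x ^ (n * (2 * n - 1)) * x⁻¹ ^ maj (val w)), ← cat_pal h0 h1 n,
    ← Finset.mul_sum]
  · have e : n * (2 * n - 1) = n ^ 2 + n * (n - 1) := by
      rcases n with _ | n
      · rfl
      · have : 2 * (n + 1) - 1 = 2 * n + 1 := by omega
        rw [this]
        have : n + 1 - 1 = n := rfl
        rw [this]
        ring
    rw [e, pow_add]
    ring
  · intro π hπ
    rw [← hnonneg π hπ, pow_add, inv_pow, mul_assoc,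
      mul_inv_cancel₀ (pow_pos h0 _).ne', mul_one]

lemma maj_add_maj {m : ℕ} (u v : Fin m → ℕ)
    (h : ∀ i : Fin m, ∀ hi : (i : ℕ) + 1 < m, (u ⟨i + 1, hi⟩ < u i ↔ ¬ v ⟨i + 1, hi⟩ < v i)) :
    2 * (maj u + maj v) = m * (m - 1) := by
  rw [← sum_pos m]
  unfold maj
  rw [← Finset.sum_add_distrib]
  congr 1
  refine Finset.sum_congr rfl fun i _ => ?_
  by_cases hi : (i : ℕ) + 1 < m
  · rw [dif_pos hi, dif_pos hi, if_pos hi]
    by_cases hv : v ⟨i + 1, hi⟩ < v i
    · rw [if_pos hv, if_neg (fun hu => (h i hi).1 hu hv), zero_add]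
    · rw [if_neg hv, if_pos ((h i hi).2 hv), add_zero]
  · rw [dif_neg hi, dif_neg hi, if_neg hi]

end Pool.Agent.Q95.CW
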