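import Pool.Agent.Q95.CW.Main

namespace Pool.Agent.Q95.CW
open Finset Polynomial

variable {n : ℕ} {L : Lab n}

open Classical in
lemma main_of' (E : ℕ) (hnonneg : ∀ π : Equiv.Perm (Fin (2 * n)), IsLE L π →
      maj (fun i => (π i : ℕ)) + maj (val (wd L π)) = E + n * (n - 1)) {x : ℝ} (h0 : 0 < x)
      (h1 : x ≠ 1) :
    ∑ π ∈ Finset.univ.filter (fun π : Equiv.Perm (Fin (2 * n)) => IsLE L π),
      x ^ maj (fun i => (π i : ℕ)) =
    x ^ E * ∑ w ∈ Finset.univ.filter (fun w : Fin (2 * n) → Fin 2 => IsCat w),
      x ^ maj (val w) := by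
  rw [sum_LE (L := L) _ (fun w => x ^ (E + n * (n - 1)) * x⁻¹ ^ maj (val w)),
    ← cat_pal h0 h1 n, ← Finset.mul_sum]
  · rw [pow_add]
    ring
  · intro π hπ
    rw [← hnonneg π hπ, pow_add, inv_pow, mul_assoc,
      mul_inv_cancel₀ (pow_pos h0 _).ne', mul_one]

def flip (c : Fin 2) : Fin 2 := 1 - c

lemma peaks {m : ℕ} (w : Fin m → Fin 2) [Decidable (lastOne w)] :
    maj (val (fun i => flip (w i))) + cnt w 1 m = maj (val w) + if lastOne w then m else 0 := by
  classical
  induction m with
  | zero =>
    unfold maj cnt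
    simp
  | succ m ih =>
    obtain ⟨v, c, rfl⟩ : ∃ (v : Fin m → Fin 2) (c : Fin 2), w = Fin.snoc v c :=
      ⟨Fin.init w, w (Fin.last m), (Fin.snoc_init_self w).symm⟩
    have e : (fun i => flip ((Fin.snoc v c : Fin (m + 1) → Fin 2) i)) =
        (Fin.snoc (fun i => flip (v i)) (flip c) : Fin (m + 1) → Fin 2) := by
      funext i
      refine Fin.lastCases ?_ (fun j => ?_) i
      · rw [Fin.snoc_last, Fin.snoc_last]
      · rw [Fin.snoc_castSucc, Fin.snoc_castSucc]
    rw [e, maj_snoc, maj_snoc, cnt_snoc]
    simp only [lastOne_snoc]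
    have ih := ih v
    have hc : c = 0 ∨ c = 1 := by
      have := c.2
      rcases h : c with ⟨v, hv⟩
      interval_cases v
      · left; rfl
      · right; rfl
    have hm : lastOne v ∨ lastOne (fun i => flip (v i)) ∨ m = 0 := by
      rcases m with _ | m
      · exact Or.inr (Or.inr rfl)
      · rw [lastOne_iff, lastOne_iff]
        generalize v (Fin.last m) = d
        revert d
        intro d
        have : d = 0 ∨ d = 1 := by
          have := d.2
          rcases h : d with ⟨v, hv⟩
          interval_cases v
          · left; rfl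
          · right; rfl
        rcases this with rfl | rfl
        · right; left; decide
        · left; rfl
    have hm2 : ¬ (lastOne v ∧ lastOne (fun i => flip (v i))) := by
      rcases m with _ | m
      · rintro ⟨⟨h, _⟩, _⟩
        omega
      · rw [lastOne_iff, lastOne_iff]
        rintro ⟨h1, h2⟩
        rw [h1] at h2
        exact absurd h2 (by decide)
    rcases hc with rfl | rfl
    · have e1 : ¬ flip 0 = 0 := by decide
      have e2 : ¬ (0 : Fin 2) = 1 := by decide
      simp only [e1, e2, false_and, if_false, add_zero, true_and]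
      exact ih
    · have e1 : flip 1 = 0 := by decide
      have e2 : ¬ (1 : Fin 2) = 0 := by decide
      simp only [e1, e2, false_and, if_false, add_zero, true_and, if_true]
      by_cases h1 : lastOne v
      · have h2 : ¬ lastOne (fun i => flip (v i)) := fun h => hm2 ⟨h1, h⟩
        rw [if_pos h1] at ih
        rw [if_neg h2]
        omega
      · rw [if_neg h1] at ih
        rcases hm with h | h | h
        · exact absurd h h1
        · rw [if_pos h]
          omega
        · subst h
          split_ifs <;> omega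

lemma last_cat {w : Fin (2 * n) → Fin 2} (hw : IsCat w) (hn : 0 < n) : lastOne w := by
  refine ⟨by omega, ?_⟩
  by_contra hc
  have h2 := cnt_succ w 1 ⟨2 * n - 1, by omega⟩
  rw [if_neg hc, add_zero] at h2
  have e : (((⟨2 * n - 1, by omega⟩ : Fin (2 * n)) : ℕ)) + 1 = 2 * n := by
    show 2 * n - 1 + 1 = 2 * n
    omega
  rw [e, hw.2] at h2
  have h3 := hw.1 (2 * n - 1) (by omega)
  have h4 := cnt_add w (k := 2 * n - 1) (by omega)
  have h5 : cnt w 1 (2 * n - 1) = n := h2.symm
  omega

lemma peaks_cat {w : Fin (2 * n) → Fin 2} (hw : IsCat w) :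
    maj (val (fun i => flip (w i))) = maj (val w) + n := by
  classical
  have h := peaks w
  rw [hw.2] at h
  rcases Nat.eq_zero_or_pos n with hn | hn
  · subst hn
    unfold maj
    simp
  · rw [if_pos (last_cat hw hn)] at h
    omega

end Pool.Agent.Q95.CW
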