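import Mathlib

/-! Palindromicity of the major index polynomial of Catalan words. -/

namespace Pool.Agent.Q95.CW
open Finset

/-- major index of a finite sequence of natural numbers -/
def maj {m : ℕ} (w : Fin m → ℕ) : ℕ :=
  ∑ i : Fin m, if h : (i : ℕ) + 1 < m then
    (if w ⟨(i : ℕ) + 1, h⟩ < w i then (i : ℕ) + 1 else 0) else 0

/-- number of letters `c` among the first `k` letters -/
def cnt {m : ℕ} (w : Fin m → Fin 2) (c : Fin 2) (k : ℕ) : ℕ :=
  (univ.filter fun i : Fin m => (i : ℕ) < k ∧ w i = c).card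

def Bal {m : ℕ} (w : Fin m → Fin 2) : Prop := ∀ k, k ≤ m → cnt w 1 k ≤ cnt w 0 k

lemma cnt_snoc_of_le {m : ℕ} (w : Fin m → Fin 2) (c d : Fin 2) {k : ℕ} (hk : k ≤ m) :
    cnt (Fin.snoc w c : Fin (m + 1) → Fin 2) d k = cnt w d k := by
  unfold cnt
  rw [Finset.card_filter, Finset.card_filter, Fin.sum_univ_castSucc]
  simp only [Fin.snoc_castSucc, Fin.snoc_last, Fin.val_castSucc, Fin.val_last]
  rw [if_neg (by omega : ¬ (m < k ∧ c = d)), add_zero]

lemma cnt_snoc {m : ℕ} (w : Fin m → Fin 2) (c d : Fin 2) :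
    cnt (Fin.snoc w c : Fin (m + 1) → Fin 2) d (m + 1) = cnt w d m + if c = d then 1 else 0 := by
  unfold cnt
  rw [Finset.card_filter, Finset.card_filter, Fin.sum_univ_castSucc]
  simp only [Fin.snoc_castSucc, Fin.snoc_last, Fin.val_castSucc, Fin.val_last]
  have : (m < m + 1 ∧ c = d) ↔ c = d := by simp
  simp only [this]
  congr 1
  refine Finset.sum_congr rfl fun i _ => ?_
  have := i.2
  have h : ((i : ℕ) < m + 1 ∧ w i = d) ↔ ((i : ℕ) < m ∧ w i = d) := by
    constructor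
    · rintro ⟨_, h⟩; exact ⟨this, h⟩
    · rintro ⟨_, h⟩; exact ⟨by omega, h⟩
  simp only [h]

lemma cnt_add {m : ℕ} (w : Fin m → Fin 2) {k : ℕ} (hk : k ≤ m) : cnt w 0 k + cnt w 1 k = k := by
  unfold cnt
  rw [← Finset.card_union_of_disjoint]
  · have : (univ.filter fun i : Fin m => (i : ℕ) < k ∧ w i = 0) ∪
        (univ.filter fun i : Fin m => (i : ℕ) < k ∧ w i = 1) =
        univ.filter fun i : Fin m => (i : ℕ) < k := by
      ext i
      simp only [Finset.mem_union, Finset.mem_filter, Finset.mem_univ, true_and]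
      have h2 : w i = 0 ∨ w i = 1 := by
        have := (w i).2
        rcases h : w i with ⟨v, hv⟩
        interval_cases v
        · left; rfl
        · right; rfl
      tauto
    rw [this]
    rw [Fin.card_filter_val_lt]
    exact min_eq_right hk
  · rw [Finset.disjoint_filter]
    rintro i _ ⟨_, h1⟩ ⟨_, h2⟩
    rw [h1] at h2
    exact absurd h2 (by decide)

lemma bal_snoc {m : ℕ} (w : Fin m → Fin 2) (c : Fin 2) :
    Bal (Fin.snoc w c : Fin (m + 1) → Fin 2) ↔
      Bal w ∧ (c = 1 → 2 * (cnt w 1 m + 1) ≤ m + 1) := by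
  unfold Bal
  have hadd := cnt_add w (le_refl m)
  constructor
  · intro h
    refine ⟨fun k hk => ?_, fun hc => ?_⟩
    · have := h k (by omega)
      rwa [cnt_snoc_of_le w c 1 hk, cnt_snoc_of_le w c 0 hk] at this
    · have := h (m + 1) le_rfl
      rw [cnt_snoc, cnt_snoc] at this
      subst hc
      rw [if_pos rfl, if_neg (by decide : ¬ (1 : Fin 2) = 0)] at this
      omega
  · rintro ⟨h1, h2⟩ k hk
    rcases Nat.lt_or_ge m k with h | h
    · have : k = m + 1 := by omega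
      subst this
      rw [cnt_snoc, cnt_snoc]
      have h3 := h1 m le_rfl
      by_cases hc : c = 1
      · subst hc
        have := h2 rfl
        rw [if_pos rfl, if_neg (by decide : ¬ (1 : Fin 2) = 0)]
        omega
      · rw [if_neg hc]
        omega
    · rw [cnt_snoc_of_le w c 1 h, cnt_snoc_of_le w c 0 h]
      exact h1 k h

/-- the last letter is one -/
def lastOne {m : ℕ} (w : Fin m → Fin 2) : Prop := ∃ h : 0 < m, w ⟨m - 1, by omega⟩ = 1

lemma lastOne_snoc {m : ℕ} (w : Fin m → Fin 2) (c : Fin 2) :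
    lastOne (Fin.snoc w c : Fin (m + 1) → Fin 2) ↔ c = 1 := by
  unfold lastOne
  have : (⟨m + 1 - 1, by omega⟩ : Fin (m + 1)) = Fin.last m := by
    apply Fin.ext; simp
  constructor
  · rintro ⟨h, h2⟩
    rw [this, Fin.snoc_last] at h2
    exact h2
  · intro h
    refine ⟨by omega, ?_⟩
    rw [this, Fin.snoc_last]
    exact h

lemma lastOne_iff {n : ℕ} (w : Fin (n + 1) → Fin 2) : lastOne w ↔ w (Fin.last n) = 1 := by
  unfold lastOne
  constructor
  · rintro ⟨h, h2⟩
    exact h2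
  · intro h
    exact ⟨by omega, h⟩

def val {m : ℕ} (w : Fin m → Fin 2) : Fin m → ℕ := fun i => (w i : ℕ)

lemma maj_snoc {m : ℕ} (w : Fin m → Fin 2) (c : Fin 2) [Decidable (lastOne w)] :
    maj (val (Fin.snoc w c : Fin (m + 1) → Fin 2)) =
      maj (val w) + if c = 0 ∧ lastOne w then m else 0 := by
  classical
  unfold maj
  rw [Fin.sum_univ_castSucc]
  have h0 : ¬ (((Fin.last m : Fin (m + 1)) : ℕ) + 1 < m + 1) := by simp
  rw [dif_neg h0, add_zero]
  rcases Nat.eq_zero_or_pos m with hm | hm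
  · subst hm
    simp
  · obtain ⟨n, rfl⟩ : ∃ n, m = n + 1 := ⟨m - 1, by omega⟩
    rw [Fin.sum_univ_castSucc, Fin.sum_univ_castSucc (n := n)]
    have h1 : ¬ (((Fin.last n : Fin (n + 1)) : ℕ) + 1 < n + 1) := by simp
    rw [dif_neg h1, add_zero]
    congr 1
    · refine Finset.sum_congr rfl fun i _ => ?_
      have hi := i.2
      have e1 : ((i.castSucc.castSucc : Fin (n + 1 + 1)) : ℕ) = i := rfl
      have e2 : ((i.castSucc : Fin (n + 1)) : ℕ) = i := rfl
      have ha : ((i.castSucc.castSucc : Fin (n + 1 + 1)) : ℕ) + 1 < n + 1 + 1 := by rw [e1]; omega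
      have hb : ((i.castSucc : Fin (n + 1)) : ℕ) + 1 < n + 1 := by rw [e2]; omega
      rw [dif_pos ha, dif_pos hb]
      have e3 : (⟨((i.castSucc.castSucc : Fin (n + 1 + 1)) : ℕ) + 1, ha⟩ : Fin (n + 1 + 1)) =
          (⟨((i.castSucc : Fin (n + 1)) : ℕ) + 1, hb⟩ : Fin (n + 1)).castSucc := rfl
      unfold val
      rw [e3, Fin.snoc_castSucc, Fin.snoc_castSucc]
      rfl
    · have ha : (((Fin.last n).castSucc : Fin (n + 1 + 1)) : ℕ) + 1 < n + 1 + 1 := by
        simp
      rw [dif_pos ha]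
      have e3 : (⟨(((Fin.last n).castSucc : Fin (n + 1 + 1)) : ℕ) + 1, ha⟩ : Fin (n + 1 + 1)) =
          Fin.last (n + 1) := by apply Fin.ext; simp
      unfold val
      rw [e3, Fin.snoc_castSucc, Fin.snoc_last]
      have e4 : (((Fin.last n).castSucc : Fin (n + 1 + 1)) : ℕ) + 1 = n + 1 := by simp
      rw [e4]
      have h5 : ((c : ℕ) < (w (Fin.last n) : ℕ)) ↔ (c = 0 ∧ lastOne w) := by
        rw [lastOne_iff]
        generalize w (Fin.last n) = d
        constructor
        · intro h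
          have := c.2
          have := d.2
          refine ⟨Fin.ext ?_, Fin.ext ?_⟩
          · show (c : ℕ) = 0; omega
          · show (d : ℕ) = 1; omega
        · rintro ⟨h1, h2⟩
          rw [h1, h2]
          decide
      simp only [h5]

/-- the last-letter recursion for sums over words -/
lemma sum_words {m : ℕ} (F : (Fin (m + 1) → Fin 2) → ℝ) :
    ∑ w : Fin (m + 1) → Fin 2, F w = ∑ w : Fin m → Fin 2, (F (Fin.snoc w 0) + F (Fin.snoc w 1)) := by
  have := (Fin.snocEquiv (fun _ : Fin (m + 1) => Fin 2)).sum_comp F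
  rw [← this, Fintype.sum_prod_type_right]
  refine Finset.sum_congr rfl fun w _ => ?_
  rw [Fin.sum_univ_two]
  rfl

open Classical in
noncomputable def T (x : ℝ) (m b : ℕ) : ℝ :=
  ∑ w : Fin m → Fin 2, if Bal w ∧ cnt w 1 m = b then x ^ maj (val w) else 0

open Classical in
noncomputable def T1 (x : ℝ) (m b : ℕ) : ℝ :=
  ∑ w : Fin m → Fin 2, if (Bal w ∧ cnt w 1 m = b) ∧ lastOne w then x ^ maj (val w) else 0

lemma T_zero_of_lt (x : ℝ) (m b : ℕ) (h : m < 2 * b) : T x m b = 0 := by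
  unfold T
  refine Finset.sum_eq_zero fun w _ => ?_
  rw [if_neg]
  rintro ⟨h1, h2⟩
  have := h1 m le_rfl
  have := cnt_add w (le_refl m)
  omega

lemma T1_zero_of_lt (x : ℝ) (m b : ℕ) (h : m < 2 * b) : T1 x m b = 0 := by
  unfold T1
  refine Finset.sum_eq_zero fun w _ => ?_
  rw [if_neg]
  rintro ⟨⟨h1, h2⟩, _⟩
  have := h1 m le_rfl
  have := cnt_add w (le_refl m)
  omega

lemma T1_succ (x : ℝ) (m b : ℕ) (h : 2 * (b + 1) ≤ m + 1) : T1 x (m + 1) (b + 1) = T x m b := by
  classical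
  unfold T1 T
  rw [sum_words]
  refine Finset.sum_congr rfl fun w _ => ?_
  have h1 : ((Bal (Fin.snoc w 0 : Fin (m + 1) → Fin 2) ∧
      cnt (Fin.snoc w 0 : Fin (m + 1) → Fin 2) 1 (m + 1) = b + 1) ∧
      lastOne (Fin.snoc w 0 : Fin (m + 1) → Fin 2)) ↔ False := by
    rw [lastOne_snoc]
    simp
  have h2 : ((Bal (Fin.snoc w 1 : Fin (m + 1) → Fin 2) ∧
      cnt (Fin.snoc w 1 : Fin (m + 1) → Fin 2) 1 (m + 1) = b + 1) ∧
      lastOne (Fin.snoc w 1 : Fin (m + 1) → Fin 2)) ↔ (Bal w ∧ cnt w 1 m = b) := by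
    rw [lastOne_snoc, bal_snoc, cnt_snoc]
    simp only [forall_const, if_true, and_true]
    constructor
    · rintro ⟨⟨h3, _⟩, h4⟩; exact ⟨h3, by omega⟩
    · rintro ⟨h3, h4⟩; exact ⟨⟨h3, by omega⟩, by omega⟩
  rw [if_congr h1 rfl rfl, if_congr h2 rfl rfl, if_false, zero_add, maj_snoc]
  have e : ¬ ((1 : Fin 2) = 0 ∧ lastOne w) := fun hh => absurd hh.1 (by decide)
  rw [if_neg e, add_zero]

lemma T_succ (x : ℝ) (m b : ℕ) :
    T x (m + 1) b = T1 x (m + 1) b + T x m b + (x ^ m - 1) * T1 x m b := by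
  classical
  unfold T1 T
  rw [sum_words, sum_words, Finset.mul_sum, ← Finset.sum_add_distrib, ← Finset.sum_add_distrib]
  refine Finset.sum_congr rfl fun w _ => ?_
  have h0 : (Bal (Fin.snoc w 0 : Fin (m + 1) → Fin 2) ∧
      cnt (Fin.snoc w 0 : Fin (m + 1) → Fin 2) 1 (m + 1) = b) ↔ (Bal w ∧ cnt w 1 m = b) := by
    rw [bal_snoc, cnt_snoc]
    simp
  simp only [h0, lastOne_snoc, maj_snoc]
  have e1 : (0 : Fin 2) ≠ 1 := by decide
  have e2 : ¬ (1 : Fin 2) = 0 := by decide
  simp only [e1, and_false, if_false, e2, false_and, and_true, true_and, add_zero, zero_add]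
  by_cases hB : Bal w ∧ cnt w 1 m = b
  · by_cases hL : lastOne w
    · simp only [hB, hL, if_true, and_self]
      rw [pow_add]
      ring
    · simp only [hB, hL, if_true, and_self, if_false, and_false, add_zero]
      ring
  · simp only [hB, if_false, false_and]
    ring

/-- the product of `1 - x ^ i`, `1 ≤ i ≤ m` -/
noncomputable def phi (x : ℝ) (m : ℕ) : ℝ := ∏ i ∈ range m, (1 - x ^ (i + 1))

lemma phi_succ (x : ℝ) (m : ℕ) : phi x (m + 1) = phi x m * (1 - x ^ (m + 1)) :=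
  Finset.prod_range_succ _ _

lemma one_sub_pow_ne {x : ℝ} (h0 : 0 < x) (h1 : x ≠ 1) (m : ℕ) : 1 - x ^ (m + 1) ≠ 0 := by
  intro h
  have : x ^ (m + 1) = 1 := by linarith
  exact h1 ((pow_eq_one_iff_of_nonneg h0.le (by omega)).1 this)

lemma phi_ne {x : ℝ} (h0 : 0 < x) (h1 : x ≠ 1) (m : ℕ) : phi x m ≠ 0 := by
  unfold phi
  rw [Finset.prod_ne_zero_iff]
  intro i _
  exact one_sub_pow_ne h0 h1 i

lemma T_b_zero (x : ℝ) (m : ℕ) : T x m 0 = 1 := by
  classical
  induction m with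
  | zero =>
    unfold T
    rw [Fintype.sum_unique]
    rw [if_pos]
    · unfold maj; simp
    · constructor
      · intro k hk
        have : k = 0 := by omega
        subst this
        unfold cnt; simp
      · unfold cnt; simp
  | succ m ih =>
    rw [T_succ, ih]
    have h1 : ∀ k, T1 x k 0 = 0 := by
      intro k
      unfold T1
      refine Finset.sum_eq_zero fun w _ => ?_
      rw [if_neg]
      rintro ⟨⟨_, h2⟩, h3, h4⟩
      unfold cnt at h2
      rw [Finset.card_eq_zero, Finset.filter_eq_empty_iff] at h2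
      exact h2 (Finset.mem_univ (⟨k - 1, by omega⟩ : Fin k)) ⟨by show k - 1 < k; omega, h4⟩
    rw [h1, h1]; ring

lemma alg (P Q R A B x D : ℝ) (hQ : Q ≠ 0) (hR : R ≠ 0) (hA : 1 - A * x ≠ 0) (hB : 1 - B ≠ 0) :
    P * (1 - D) * (1 - x - A * x + B) / (Q * (1 - A * x) * R) +
      P * (1 - D) * (1 - x - A + B * x) / (Q * (R * (1 - B))) +
      (D - 1) * (P * (1 - x - A + B) / (Q * R)) =
    P * (1 - D) * (1 - A * B) * (1 - x - A * x + B * x) / (Q * (1 - A * x) * (R * (1 - B))) := by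
  obtain ⟨E, hE⟩ : ∃ E, E = 1 - A * x := ⟨_, rfl⟩
  obtain ⟨G, hG⟩ : ∃ G, G = 1 - B := ⟨_, rfl⟩
  have e1 : 1 - x - A * x + B = E - x + (1 - G) := by rw [hE, hG]; ring
  rw [← hE] at hA ⊢
  rw [← hG] at hB ⊢
  rw [div_add_div _ _ (by positivity) (by positivity), div_add' _ _ _ (by positivity)]
  field_simp
  rw [hE, hG]
  ring

lemma T_closed {x : ℝ} (h0 : 0 < x) (h1 : x ≠ 1) (s : ℕ) :
    ∀ a b : ℕ, a + b = s → b ≤ a →
      T x (a + b) b = phi x (a + b) * (1 - x - x ^ (a + 1) + x ^ (b + 1)) /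
        (phi x (a + 1) * phi x b) := by
  induction s using Nat.strong_induction_on with
  | _ s ih =>
    intro a b hs hba
    rcases b with _ | b
    · rw [add_zero, T_b_zero, phi_succ]
      have := phi_ne h0 h1 a
      have := one_sub_pow_ne h0 h1 a
      have h3 : phi x 0 = 1 := by unfold phi; simp
      rw [h3]
      field_simp
      ring
    · have hp := phi_ne h0 h1
      have hq := one_sub_pow_ne h0 h1
      have e1 : a + (b + 1) = (a + b) + 1 := by ring
      rw [e1, T_succ, T1_succ x _ _ (by omega)]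
      rcases Nat.eq_or_lt_of_le hba with h | h
      · -- a = b + 1
        subst h
        rw [T_zero_of_lt x (b + 1 + b) (b + 1) (by omega),
          T1_zero_of_lt x (b + 1 + b) (b + 1) (by omega),
          ih (b + 1 + b) (by omega) (b + 1) b rfl (by omega)]
        rw [phi_succ x (b + 1 + b), phi_succ x b]
        have := hp (b + 1 + 1)
        have := hp b
        have := hp (b + 1 + b)
        have := hq b
        have e : x ^ (b + 1 + b + 1) = (x ^ (b + 1)) ^ 2 := by ring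
        rw [e]
        field_simp
        ring
      · obtain ⟨c, rfl⟩ : ∃ c, a = c + 1 := ⟨a - 1, by omega⟩
        have e2 : c + 1 + b = (c + b) + 1 := by ring
        rw [ih (c + 1 + b) (by omega) (c + 1) b rfl (by omega)]
        have e3 : T x (c + 1 + b) (b + 1) = T x (c + (b + 1)) (b + 1) := by
          rw [show c + 1 + b = c + (b + 1) by ring]
        rw [e3, ih (c + (b + 1)) (by omega) c (b + 1) rfl (by omega)]
        have e4 : T1 x (c + 1 + b) (b + 1) = T x (c + b) b := by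
          rw [e2, T1_succ x _ _ (by omega)]
        rw [e4, ih (c + b) (by omega) c b rfl (by omega)]
        have e5 : c + (b + 1) = c + b + 1 := by ring
        rw [e2, e5, phi_succ x (c + b + 1), phi_succ x (c + b), phi_succ x (c + 1), phi_succ x b]
        have f2 : x ^ (c + b + 1 + 1) = x ^ (c + 1) * x ^ (b + 1) := by ring
        have f3 : x ^ (c + 1 + 1) = x ^ (c + 1) * x := by ring
        have f4 : x ^ (b + 1 + 1) = x ^ (b + 1) * x := by ring
        have hA := hq (c + 1)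
        have hB := hq b
        rw [f3] at hA
        rw [f2, f3, f4]
        exact alg (phi x (c + b)) (phi x (c + 1)) (phi x b) (x ^ (c + 1)) (x ^ (b + 1)) x
          (x ^ (c + b + 1)) (hp _) (hp _) hA hB

lemma T_diag {x : ℝ} (h0 : 0 < x) (h1 : x ≠ 1) (n : ℕ) :
    T x (2 * n) n = phi x (2 * n) * (1 - x) / (phi x (n + 1) * phi x n) := by
  have := T_closed h0 h1 (n + n) n n rfl le_rfl
  rw [← two_mul] at this
  rw [this]
  congr 2
  ring

def ee (m : ℕ) : ℕ := ∑ i ∈ range m, (i + 1)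

lemma two_ee (m : ℕ) : 2 * ee m = m * (m + 1) := by
  unfold ee
  induction m with
  | zero => simp
  | succ m ih => rw [Finset.sum_range_succ, mul_add, ih]; ring

lemma phi_inv {x : ℝ} (h0 : 0 < x) (m : ℕ) :
    phi x⁻¹ m * x ^ ee m = (-1) ^ m * phi x m := by
  unfold phi ee
  induction m with
  | zero => simp
  | succ m ih =>
    rw [Finset.prod_range_succ, Finset.prod_range_succ, Finset.sum_range_succ, pow_add]
    have h2 : (1 - x⁻¹ ^ (m + 1)) * x ^ (m + 1) = - (1 - x ^ (m + 1)) := by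
      rw [sub_mul, inv_pow, inv_mul_cancel₀ (pow_pos h0 _).ne']
      ring
    calc _ = ((∏ i ∈ range m, (1 - x⁻¹ ^ (i + 1))) * x ^ ∑ i ∈ range m, (i + 1)) *
          ((1 - x⁻¹ ^ (m + 1)) * x ^ (m + 1)) := by ring
      _ = _ := by rw [ih, h2]; ring

theorem T_pal {x : ℝ} (h0 : 0 < x) (h1 : x ≠ 1) (n : ℕ) :
    T x⁻¹ (2 * n) n * x ^ (n * (n - 1)) = T x (2 * n) n := by
  have h0' : 0 < x⁻¹ := inv_pos.2 h0
  have h1' : x⁻¹ ≠ 1 := by rw [Ne, inv_eq_one]; exact h1
  rw [T_diag h0 h1, T_diag h0' h1']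
  have a1 := phi_inv h0 (2 * n)
  have a2 := phi_inv h0 (n + 1)
  have a3 := phi_inv h0 n
  have e1 : (-1 : ℝ) ^ (2 * n) = 1 := by rw [pow_mul]; simp
  rw [e1, one_mul] at a1
  have hx : ∀ k, x ^ k ≠ 0 := fun k => (pow_pos h0 k).ne'
  have a4 : phi x⁻¹ (n + 1) * phi x⁻¹ n * (x ^ ee (n + 1) * x ^ ee n) =
      - (phi x (n + 1) * phi x n) := by
    have e2 : (-1 : ℝ) ^ (n + 1) * (-1) ^ n = -1 := by
      rw [← pow_add]
      have : n + 1 + n = 2 * n + 1 := by ring
      rw [this, pow_succ, pow_mul]; simp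
    calc _ = (phi x⁻¹ (n + 1) * x ^ ee (n + 1)) * (phi x⁻¹ n * x ^ ee n) := by ring
      _ = ((-1) ^ (n + 1) * (-1) ^ n) * (phi x (n + 1) * phi x n) := by rw [a2, a3]; ring
      _ = _ := by rw [e2]; ring
  have key : x ^ (n * (n - 1)) * (x ^ ee (n + 1) * x ^ ee n) = x ^ ee (2 * n) * x := by
    rw [← pow_add, ← pow_add, ← pow_succ]
    congr 1
    have b1 := two_ee (n + 1)
    have b2 := two_ee n
    have b3 := two_ee (2 * n)
    rcases n with _ | n
    · simp [ee]
    · have : n + 1 - 1 = n := rfl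
      rw [this]
      nlinarith
  have hb1 := phi_ne h0 h1 (n + 1)
  have hb2 := phi_ne h0 h1 n
  have hb3 := phi_ne h0' h1' (n + 1)
  have hb4 := phi_ne h0' h1' n
  rw [← a1, div_mul_eq_mul_div, div_eq_div_iff (mul_ne_zero hb3 hb4) (mul_ne_zero hb1 hb2)]
  have a5 : phi x (n + 1) * phi x n =
      - (phi x⁻¹ (n + 1) * phi x⁻¹ n * (x ^ ee (n + 1) * x ^ ee n)) := by rw [a4]; ring
  rw [a5]
  have c1 : (1 - x⁻¹) * x = -(1 - x) := by
    rw [sub_mul, inv_mul_cancel₀ h0.ne']; ring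
  calc _ = - (phi x⁻¹ (2 * n) * (1 - x⁻¹) * (phi x⁻¹ (n + 1) * phi x⁻¹ n)) *
        (x ^ (n * (n - 1)) * (x ^ ee (n + 1) * x ^ ee n)) := by ring
    _ = - (phi x⁻¹ (2 * n) * (phi x⁻¹ (n + 1) * phi x⁻¹ n)) * x ^ ee (2 * n) *
        ((1 - x⁻¹) * x) := by rw [key]; ring
    _ = _ := by rw [c1]; ring

end Pool.Agent.Q95.CW
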